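import Pool.Agent.Run7.h875.SV.Sign
import Pool.Agent.Run7.h875.SV.Chars
import Pool.Agent.Run7.h875.SV.Int11

/-!
# Simultaneous non-vanishing of two quadratic twists: the answer is negative

For every newform `f` of level one or of prime level `N`, and every quadratic character `χ` with
`χ(-1) = -1` and `χ(N) = 1` (there are infinitely many), the two functional equations of
`L(f ⊗ ψ, s)` and `L(f ⊗ χψ, s)` have opposite signs for every quadratic character `ψ`, so that
`L(f ⊗ ψ, 1/2) L(f ⊗ χψ, 1/2) = 0` for every `ψ`.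
-/

set_option autoImplicit false

open UpperHalfPlane MatrixGroups CongruenceSubgroup

namespace Pool.Agent.Results.MP_d17ed7_nt.OppositeSigns

open Pool.Agent.W97.TW Run7.h875.SV

/-- The statement: `(1)` for every `N ≥ 1` there are quadratic characters `χ` of arbitrarily large
conductor with `χ(-1) = -1` and `χ(N) = 1`; `(2)` for every newform `f` of level `N`, where `N = 1`
or `N` is prime, every such `χ` and EVERY quadratic character `ψ`, the `L`-functions of `f ⊗ ψ` and
of `f ⊗ χψ` exist and are unique and the product of their values at `1/2` is zero; `(3)` the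
discriminant `η²⁴` is such a newform, of level `1` and weight `12`; `(4)` so is `η(z)²η(11z)²`, of
level `11` and weight `2`, with integral Fourier coefficients. -/
theorem result :
    (∀ N : ℕ, 0 < N → ∀ M : ℕ, ∃ χ : QuadraticCharacter,
      M < χ.modulus ∧ χ.χ (-1) = -1 ∧ χ.χ N = 1) ∧
    (∀ (N : ℕ), (N = 1 ∨ N.Prime) → ∀ (k : ℤ), 0 < k →
      ∀ f : CuspForm (Gamma0 N : Subgroup (GL (Fin 2) ℝ)) k, IsNewform N k f →
      ∀ χ : QuadraticCharacter, χ.χ (-1) = -1 → χ.χ N = 1 →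
      ∀ ψ : QuadraticCharacter,
        (∃! L : ℂ → ℂ, IsTwistedLFunction N k f ψ.χ L) ∧
        (∃! L : ℂ → ℂ, IsTwistedLFunction N k f (χ.χ.primitive_mul ψ.χ) L) ∧
        ∀ L₁ L₂ : ℂ → ℂ, IsTwistedLFunction N k f ψ.χ L₁ →
          IsTwistedLFunction N k f (χ.χ.primitive_mul ψ.χ) L₂ → L₁ (1 / 2) * L₂ (1 / 2) = 0) ∧
    (IsNewform 1 12 deltaForm ∧ ∀ z : ℍ, deltaForm z = ModularForm.eta z ^ 24) ∧
    (IsNewform 11 2 f11 ∧
      (∀ z : ℍ, f11 z = ModularForm.eta z ^ 2 * ModularForm.eta (11 * z) ^ 2) ∧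
      ∀ n : ℕ, ∃ a : ℤ, (qExpansion 1 f11).coeff n = a) := by
  refine ⟨exists_char, ?_, ⟨isNewform_delta, deltaForm_apply⟩, isNewform_f11, f11_apply, f11_int⟩
  intro N hN k hk f hf χ hodd hχN ψ
  have : NeZero N := ⟨by
    rcases hN with h | h
    · rw [h]
      exact one_ne_zero
    · exact h.ne_zero⟩
  have : NeZero χ.modulus := ⟨χ.modulus_pos.ne'⟩
  have : NeZero ψ.modulus := ⟨ψ.modulus_pos.ne'⟩
  obtain ⟨L₁, L₂, h1, h2, h3⟩ := product_zero hN hk hf χ.χ ψ.χ χ.sq_eq_one hodd hχN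
    ψ.primitive ψ.sq_eq_one
  refine ⟨⟨L₁, h1, fun L hL => unique_L hL h1⟩, ⟨L₂, h2, fun L hL => unique_L hL h2⟩,
    fun L L' hL hL' => ?_⟩
  rw [unique_L hL h1, unique_L hL' h2]
  exact h3

end Pool.Agent.Results.MP_d17ed7_nt.OppositeSigns
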